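import Pool.Agent.H705.FP.Stm2

/-!
# Large values outside the exceptional set (task LOE of helper705)

Adapted from `Pool/Agent/H685/FP/T_LOA.lean` (helper685).
-/

set_option autoImplicit false

open MeasureTheory ProbabilityTheory Filter Topology Finset

namespace Pool.Agent.H164.FP.LOE

open Pool.Agent.H705 Pool.Agent.H705.FP

theorem rpow_anti {x y z : ℝ} (hy : 0 < y) (hxy : y ≤ x) (hz : z ≤ 0) : x ^ z ≤ y ^ z := by
  rcases hz.lt_or_eq with h | h
  · exact (Real.rpow_le_rpow_iff_of_neg (hy.trans_le hxy) hy h).2 hxy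
  · rw [h, Real.rpow_zero, Real.rpow_zero]

/-- the amplitudes are bounded -/
theorem amp_bdd {a : ℕ → ℝ} (ha : RO.Amp a) : ∃ B : ℝ, 0 ≤ B ∧ ∀ n, a n ≤ B := by
  obtain ⟨C, hC⟩ := ha.2 1 one_pos
  have h5 := ha.1 0
  have h6 := abs_nonneg C
  refine ⟨a 0 + |C| + 1, by linarith, fun n => ?_⟩
  rcases Nat.eq_zero_or_pos n with rfl | hn
  · linarith
  · have h1 := hC n (n + 1) hn (Nat.le_succ n)
    rw [Finset.sum_Ico_succ_top le_rfl, Finset.Ico_self, Finset.sum_empty, zero_add] at h1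
    have h2 : ((n : ℝ)) ^ ((-1 : ℝ) + 1) = 1 := by
      rw [neg_add_cancel, Real.rpow_zero]
    rw [h2, mul_one] at h1
    have h3 : a n ≤ a n ^ 2 + 1 := by nlinarith [sq_nonneg (a n - 1 / 2)]
    have h4 := le_abs_self C
    linarith

theorem part_diff {W : ℕ → ℝ → ℝ} {a : ℕ → ℝ} {A : ℕ} {B : ℝ} (hB0 : 0 ≤ B)
    (hB : ∀ n, a n ≤ B)
    (hL : ∀ (n : ℕ) (t t' : ℝ), |W n t - W n t'| ≤ a n * (2 * ((n : ℝ) + 2) ^ A) * |t - t'|)
    (M : ℕ) (y t : ℝ) :
    |RO.part W M y - RO.part W M t| ≤ M * (B * (2 * ((M : ℝ) + 2) ^ A)) * |y - t| := by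
  unfold RO.part
  rw [← sum_sub_distrib]
  refine (abs_sum_le_sum_abs _ _).trans ?_
  have h : ∀ n ∈ range M, |W n y - W n t| ≤ B * (2 * ((M : ℝ) + 2) ^ A) * |y - t| := by
    intro n hn
    refine (hL n y t).trans ?_
    refine mul_le_mul_of_nonneg_right ?_ (abs_nonneg _)
    refine mul_le_mul (hB n) ?_ (by positivity) hB0
    have h1 : (n : ℝ) ≤ M := by exact_mod_cast (mem_range.1 hn).le
    refine mul_le_mul_of_nonneg_left ?_ (by norm_num)
    exact pow_le_pow_left₀ (by positivity) (by linarith) A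
  refine (sum_le_sum h).trans ?_
  rw [sum_const, card_range, nsmul_eq_mul]
  exact le_of_eq (by ring)

/-- `nf A k ^ (A + 2) ≤ k` -/
theorem nf_pow_le (A k : ℕ) : ((nf A k : ℕ) : ℝ) ^ (A + 2) ≤ k := by
  have hk : (0 : ℝ) ≤ k := Nat.cast_nonneg k
  have h1 : ((nf A k : ℕ) : ℝ) ≤ (k : ℝ) ^ ((1 : ℝ) / ((A : ℝ) + 2)) :=
    Nat.floor_le (Real.rpow_nonneg hk _)
  calc ((nf A k : ℕ) : ℝ) ^ (A + 2) ≤ ((k : ℝ) ^ ((1 : ℝ) / ((A : ℝ) + 2))) ^ (A + 2) :=
        pow_le_pow_left₀ (Nat.cast_nonneg _) h1 _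
    _ = k := by
        rw [← Real.rpow_natCast, ← Real.rpow_mul hk]
        push_cast
        rw [one_div, inv_mul_cancel₀ (by positivity), Real.rpow_one]

/-- `x ^ (A + 2) ≤ k` gives `x ≤ nf A k` -/
theorem le_nf {A k x : ℕ} (h : x ^ (A + 2) ≤ k) : x ≤ nf A k := by
  refine Nat.le_floor ?_
  have hk : (0 : ℝ) ≤ k := Nat.cast_nonneg k
  have h1 : ((x : ℝ)) ^ (A + 2) ≤ ((k : ℝ) ^ ((1 : ℝ) / ((A : ℝ) + 2))) ^ (A + 2) := by
    have h2 : ((k : ℝ) ^ ((1 : ℝ) / ((A : ℝ) + 2))) ^ (A + 2) = k := by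
      rw [← Real.rpow_natCast, ← Real.rpow_mul hk]
      push_cast
      rw [one_div, inv_mul_cancel₀ (by positivity), Real.rpow_one]
    rw [h2]
    exact_mod_cast h
  exact le_of_pow_le_pow_left₀ (by omega) (Real.rpow_nonneg hk _) h1

/-- a window on which the exceptional set has small measure contains a nonexceptional point -/
theorem exists_notMem {E : Set ℝ} {C c : ℝ} (hC : 0 ≤ C) (hc : 0 < c)
    (hE : ∀ k : ℕ, 1 ≤ k → (volume : Measure ℝ) (E ∩ Set.Icc (k : ℝ) (k + 1)) ≤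
      ENNReal.ofReal (C * (k : ℝ) ^ (-(2 * c)))) (hc1 : 2 * c ≤ 1)
    {t : ℝ} (ht : 1 ≤ t) (hs : 4 * C * t ^ (-c) < 1) :
    ∃ y ∈ Set.Icc t (t + t ^ (-c)), y ∉ E := by
  by_contra hcon
  push Not at hcon
  have ht0 : 0 < t := by linarith
  obtain ⟨η, hη⟩ : ∃ η : ℝ, η = t ^ (-c) := ⟨_, rfl⟩
  rw [← hη] at hcon hs
  have hη0 : 0 < η := by
    rw [hη]
    exact Real.rpow_pos_of_pos ht0 _
  have hη1 : η ≤ 1 := by
    rw [hη]
    exact Real.rpow_le_one_of_one_le_of_nonpos ht (by linarith)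
  obtain ⟨k, hk⟩ : ∃ k : ℕ, k = ⌊t⌋₊ := ⟨_, rfl⟩
  have hk1 : 1 ≤ k := by
    rw [hk]
    exact Nat.le_floor (by push_cast; exact ht)
  have hk1' : (1 : ℝ) ≤ k := by exact_mod_cast hk1
  have hkt : (k : ℝ) ≤ t := by
    rw [hk]
    exact Nat.floor_le ht0.le
  have htk : t < (k : ℝ) + 1 := by
    rw [hk]
    exact Nat.lt_floor_add_one t
  have hsub : Set.Icc t (t + η) ⊆
      (E ∩ Set.Icc (k : ℝ) (k + 1)) ∪ (E ∩ Set.Icc ((k + 1 : ℕ) : ℝ) ((k + 1 : ℕ) + 1)) := by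
    intro y hy
    have hyE := hcon y hy
    rcases le_total y ((k : ℝ) + 1) with h | h
    · exact Or.inl ⟨hyE, ⟨hkt.trans hy.1, h⟩⟩
    · refine Or.inr ⟨hyE, ⟨by push_cast; exact h, ?_⟩⟩
      push_cast
      have := hy.2
      linarith
  have h1 : (volume : Measure ℝ) (Set.Icc t (t + η)) ≤
      ENNReal.ofReal (C * (k : ℝ) ^ (-(2 * c))) +
        ENNReal.ofReal (C * ((k + 1 : ℕ) : ℝ) ^ (-(2 * c))) :=
    (measure_mono hsub).trans ((measure_union_le _ _).trans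
      (add_le_add (hE k hk1) (hE (k + 1) (by omega))))
  rw [Real.volume_Icc, add_sub_cancel_left, ← ENNReal.ofReal_add (by positivity) (by positivity),
    ENNReal.ofReal_le_ofReal_iff (by positivity)] at h1
  -- compare with `4 C t ^ (-2c)`
  have h2 : (k : ℝ) ^ (-(2 * c)) ≤ 2 * t ^ (-(2 * c)) := by
    have h3 : (k : ℝ) ^ (-(2 * c)) ≤ (t / 2) ^ (-(2 * c)) :=
      rpow_anti (by positivity) (by linarith) (by linarith)
    have h4 : (t / 2) ^ (-(2 * c)) ≤ 2 * t ^ (-(2 * c)) := by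
      rw [Real.div_rpow ht0.le (by norm_num), Real.rpow_neg (by norm_num : (0 : ℝ) ≤ 2),
        div_inv_eq_mul, mul_comm]
      refine mul_le_mul_of_nonneg_right ?_ (Real.rpow_nonneg ht0.le _)
      calc (2 : ℝ) ^ (2 * c) ≤ 2 ^ (1 : ℝ) :=
            Real.rpow_le_rpow_of_exponent_le (by norm_num) hc1
        _ = 2 := Real.rpow_one 2
    exact h3.trans h4
  have h3 : ((k + 1 : ℕ) : ℝ) ^ (-(2 * c)) ≤ 2 * t ^ (-(2 * c)) := by
    refine le_trans ?_ h2
    refine rpow_anti (by positivity) ?_ (by linarith)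
    push_cast
    linarith
  have h4 : t ^ (-(2 * c)) = η * η := by
    rw [hη, ← Real.rpow_add ht0]
    congr 1
    ring
  rw [h4] at h2 h3
  have h5 := mul_le_mul_of_nonneg_left h2 hC
  have h6 := mul_le_mul_of_nonneg_left h3 hC
  have h7 : η ≤ (4 * C * η) * η := by nlinarith
  nlinarith

theorem T_LOE : P_LOE := by
  intro W S a A σ C hσ ha hL hUT hBig hC0 hExc c' hc' hc'1
  obtain ⟨D, hD1, hBq⟩ := hBig c' hc' hc'1
  refine ⟨D + 1, by linarith, ?_⟩
  obtain ⟨B, hB0, hB⟩ := amp_bdd ha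
  obtain ⟨K, hK0, hK⟩ := hUT 0
  have hσ1 : |σ| = 1 := by
    rcases hσ with rfl | rfl
    · exact abs_one
    · rw [abs_neg, abs_one]
  have hA0 : (0 : ℝ) ≤ A := Nat.cast_nonneg A
  obtain ⟨c, hcdef⟩ : ∃ c : ℝ, c = 1 / (4 * (A : ℝ) + 8) := ⟨_, rfl⟩
  have hc : 0 < c := by
    rw [hcdef]
    positivity
  have hcA : c * (4 * (A : ℝ) + 8) = 1 := by
    rw [hcdef, one_div, inv_mul_cancel₀ (by positivity)]
  have h2c : 1 / (2 * (A : ℝ) + 4) = 2 * c := by
    rw [hcdef]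
    field_simp
    ring
  have h2c1 : 2 * c ≤ 1 := by
    nlinarith
  rw [h2c] at hExc
  obtain ⟨q, hqdef⟩ : ∃ q : ℕ, q = (4 * A + 9) * (4 * A + 8) := ⟨_, rfl⟩
  have hq1 : 4 * (A + 2) ≤ q := by
    rw [hqdef]
    nlinarith
  have hq2 : c * q = 4 * (A : ℝ) + 9 := by
    rw [hqdef]
    push_cast
    calc c * ((4 * (A : ℝ) + 9) * (4 * A + 8)) = (c * (4 * (A : ℝ) + 8)) * (4 * A + 9) := by ring
      _ = 4 * (A : ℝ) + 9 := by rw [hcA, one_mul]
  obtain ⟨N₁, hN₁⟩ := hBq q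
  have e1 : ∀ᶠ N : ℕ in atTop, N₁ ≤ N := eventually_ge_atTop N₁
  have e2 : ∀ᶠ N : ℕ in atTop, 1 ≤ N := eventually_ge_atTop 1
  have e3 : ∀ᶠ N : ℕ in atTop, 2 * B * 3 ^ A ≤ (N : ℝ) :=
    tendsto_natCast_atTop_atTop.eventually_ge_atTop _
  have e4 : ∀ᶠ N : ℕ in atTop, 4 * K ^ 2 * (8 + 2 * D) ≤ (N : ℝ) :=
    tendsto_natCast_atTop_atTop.eventually_ge_atTop _
  have e5 : ∀ᶠ N : ℕ in atTop, 4 * C * (N : ℝ) ^ (-c) < 1 := by
    have h1 : Tendsto (fun N : ℕ => 4 * C * (N : ℝ) ^ (-c)) atTop (𝓝 (4 * C * 0)) :=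
      ((tendsto_rpow_neg_atTop hc).comp tendsto_natCast_atTop_atTop).const_mul _
    rw [mul_zero] at h1
    exact h1.eventually (gt_mem_nhds one_pos)
  have e : ∀ᶠ N : ℕ in atTop, ∃ t : ℝ, t ∉ Exc A W S ∧ (N : ℝ) ≤ t ∧
      t ≤ Real.exp ((D + 1) * N) ∧ c' * RO.R a N - 4 ≤ σ * S t := by
    filter_upwards [e1, e2, e3, e4, e5] with N h1 h2 h3 h4 h5
    obtain ⟨t, ht1, ht2, ht3⟩ := hN₁ N h1
    have hNR : (1 : ℝ) ≤ N := by exact_mod_cast h2
    have hN0 : (0 : ℝ) < N := by linarith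
    have hq0 : q ≠ 0 := by omega
    have htN : (N : ℝ) ≤ t := (le_self_pow₀ hNR hq0).trans ht1
    have ht1' : (1 : ℝ) ≤ t := hNR.trans htN
    have ht0 : (0 : ℝ) < t := by linarith
    have hDN : 0 ≤ D * N := by positivity
    -- the nonexceptional time
    obtain ⟨y, hyI, hyE⟩ := exists_notMem hC0 hc hExc h2c1 ht1' (by
      refine lt_of_le_of_lt ?_ h5
      exact mul_le_mul_of_nonneg_left (rpow_anti hN0 htN (by linarith)) (by positivity))
    obtain ⟨η, hη⟩ : ∃ η : ℝ, η = t ^ (-c) := ⟨_, rfl⟩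
    rw [← hη] at hyI
    obtain ⟨hy1, hy2⟩ := hyI
    have hη0 : 0 < η := by
      rw [hη]
      exact Real.rpow_pos_of_pos ht0 _
    have hη1 : η ≤ 1 := by
      rw [hη]
      exact Real.rpow_le_one_of_one_le_of_nonpos ht1' (by linarith)
    have hηN : η ≤ 1 / (N : ℝ) ^ (4 * A + 9) := by
      have h6 : t ^ (-c) ≤ ((N : ℝ) ^ q) ^ (-c) :=
        rpow_anti (by positivity) ht1 (by linarith)
      have h7 : ((N : ℝ) ^ q) ^ (-c) = (N : ℝ) ^ (-(c * q)) := by
        rw [← Real.rpow_natCast (N : ℝ) q, ← Real.rpow_mul hN0.le]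
        congr 1
        ring
      have h8 : (N : ℝ) ^ (-(c * q)) ≤ (N : ℝ) ^ (-((4 * A + 9 : ℕ) : ℝ)) :=
        Real.rpow_le_rpow_of_exponent_le hNR (by push_cast; linarith)
      have h9 : (N : ℝ) ^ (-((4 * A + 9 : ℕ) : ℝ)) = 1 / (N : ℝ) ^ (4 * A + 9) := by
        rw [Real.rpow_neg hN0.le, Real.rpow_natCast, one_div]
      rw [hη]
      rw [h7] at h6
      rw [h9] at h8
      exact h6.trans h8
    have hy0 : (0 : ℝ) ≤ y := by linarith
    have hexp : Real.exp (D * N) + 1 ≤ Real.exp ((D + 1) * N) := by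
      have h9 : Real.exp ((D + 1) * N) = Real.exp (D * N) * Real.exp N := by
        rw [← Real.exp_add]
        congr 1
        ring
      have h10 : (N : ℝ) + 1 ≤ Real.exp N := Real.add_one_le_exp _
      have h11 : 1 ≤ Real.exp (D * N) := Real.one_le_exp hDN
      rw [h9]
      nlinarith
    refine ⟨y, hyE, by linarith, by linarith, ?_⟩
    -- the length of the partial sum
    obtain ⟨L, hLdef⟩ : ∃ L : ℕ, L = nf A ⌊y⌋₊ := ⟨_, rfl⟩
    have hLN : N ^ 4 ≤ L := by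
      rw [hLdef]
      refine le_nf (Nat.le_floor ?_)
      push_cast
      rw [← pow_mul]
      exact (pow_le_pow_right₀ hNR hq1).trans (ht1.trans hy1)
    have hLy : (L : ℝ) ^ (A + 2) ≤ y := by
      rw [hLdef]
      exact (nf_pow_le A _).trans (Nat.floor_le hy0)
    have hSy : |S y - RO.part W L y| < 1 := by
      rw [hLdef]
      by_contra hcon
      exact hyE ⟨hy0, not_lt.1 hcon⟩
    -- the second term
    have hsec : |RO.part W (N ^ 4) y - RO.part W (N ^ 4) t| ≤ 1 := by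
      refine (part_diff hB0 hB hL (N ^ 4) y t).trans ?_
      have h6 : |y - t| ≤ 1 / (N : ℝ) ^ (4 * A + 9) := by
        rw [abs_of_nonneg (by linarith)]
        linarith
      push_cast
      have h7 : ((N : ℝ) ^ 4 + 2) ^ A ≤ (3 * (N : ℝ) ^ 4) ^ A := by
        refine pow_le_pow_left₀ (by positivity) ?_ A
        have h8 : (1 : ℝ) ≤ (N : ℝ) ^ 4 := one_le_pow₀ hNR
        linarith
      calc (N : ℝ) ^ 4 * (B * (2 * ((N : ℝ) ^ 4 + 2) ^ A)) * |y - t| ≤
            (N : ℝ) ^ 4 * (B * (2 * (3 * (N : ℝ) ^ 4) ^ A)) * (1 / (N : ℝ) ^ (4 * A + 9)) := by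
            gcongr
        _ = (2 * B * 3 ^ A) * (1 / (N : ℝ) ^ 5) := by
            rw [mul_pow, ← pow_mul, show 4 * A + 9 = 4 * A + 4 + 5 by ring, pow_add, pow_add]
            field_simp
        _ ≤ N * (1 / (N : ℝ) ^ 5) := by gcongr
        _ ≤ 1 := by
            rw [mul_one_div, div_le_one (by positivity)]
            exact le_self_pow₀ hNR (by norm_num)
    -- the third term
    have hthird : |∑ n ∈ Ico (N ^ 4) L, W n y| ≤ 1 := by
      obtain ⟨J, hJ⟩ : ∃ J : ℕ, J = Nat.log 2 (N ^ 4) := ⟨_, rfl⟩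
      obtain ⟨k, hk⟩ : ∃ k : ℕ, k = ⌈(D * N + 1) / Real.log 2⌉₊ := ⟨_, rfl⟩
      have hlog2 : 1 / 2 < Real.log 2 := by linarith [Real.log_two_gt_d9]
      have hlog0 : 0 < Real.log 2 := by linarith
      have hN4 : N ^ 4 ≠ 0 := pow_ne_zero _ (by omega)
      have hJ1 : 2 ^ J ≤ N ^ 4 := by
        rw [hJ]
        exact Nat.pow_log_le_self 2 hN4
      have hJ2 : N ^ 4 < 2 ^ (J + 1) := by
        rw [hJ]
        exact Nat.lt_pow_succ_log_self (by norm_num) _
      have hJ3 : J < 4 * N := by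
        have h6 : N ^ 4 < 2 ^ (4 * N) := by
          calc N ^ 4 < (2 ^ N) ^ 4 := Nat.pow_lt_pow_left Nat.lt_two_pow_self (by norm_num)
            _ = 2 ^ (4 * N) := by rw [← pow_mul, mul_comm]
        exact (Nat.pow_lt_pow_iff_right (by norm_num)).1 (lt_of_le_of_lt hJ1 h6)
      have hk1 : (D * N + 1) / Real.log 2 ≤ k := by
        rw [hk]
        exact Nat.le_ceil _
      have hk2 : (k : ℝ) ≤ 2 * (D * N + 1) + 1 := by
        have h6 : (k : ℝ) < (D * N + 1) / Real.log 2 + 1 := by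
          rw [hk]
          exact Nat.ceil_lt_add_one (by positivity)
        have h7 : (D * N + 1) / Real.log 2 ≤ 2 * (D * N + 1) := by
          rw [div_le_iff₀ hlog0]
          nlinarith
        linarith
      have hyk : y ≤ 2 ^ k := by
        have h6 : (2 : ℝ) ^ k = Real.exp (k * Real.log 2) := by
          rw [Real.exp_nat_mul, Real.exp_log (by norm_num)]
        have h7 : D * N + 1 ≤ k * Real.log 2 := by
          rwa [div_le_iff₀ hlog0] at hk1
        have h8 : Real.exp (D * N + 1) ≤ Real.exp (k * Real.log 2) := Real.exp_le_exp.2 h7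
        have h9 : Real.exp (D * N + 1) = Real.exp (D * N) * Real.exp 1 := Real.exp_add _ _
        have h10 : (1 : ℝ) + 1 ≤ Real.exp 1 := Real.add_one_le_exp 1
        have h11 : 1 ≤ Real.exp (D * N) := Real.one_le_exp hDN
        rw [h6]
        nlinarith
      have h6 := hK J k y hy0 hyk (N ^ 4) L hJ1 hLN hLy
      refine h6.trans ?_
      obtain ⟨x, hx⟩ : ∃ x : ℝ, x = (2 : ℝ) ^ ((J : ℝ) / 4) := ⟨_, rfl⟩
      have hx0 : 0 < x := by
        rw [hx]
        positivity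
      have hx4 : x ^ 4 = 2 ^ J := by
        rw [hx, ← Real.rpow_natCast, ← Real.rpow_mul (by norm_num), ← Real.rpow_natCast]
        congr 1
        push_cast
        ring
      have hNx : (N : ℝ) ≤ 2 * x := by
        have h7 : (N : ℝ) ^ 4 ≤ (2 * x) ^ 4 := by
          have h8 : ((N ^ 4 : ℕ) : ℝ) ≤ ((2 ^ (J + 1) : ℕ) : ℝ) := by exact_mod_cast hJ2.le
          push_cast at h8
          rw [pow_succ (2 : ℝ) J, ← hx4] at h8
          have h9 : 0 < x ^ 4 := by positivity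
          nlinarith
        exact le_of_pow_le_pow_left₀ (by norm_num) (by positivity) h7
      have h7 : (2 : ℝ) ^ (-(RO.pe 0 * J / 2)) = x⁻¹ := by
        have h8 : RO.pe 0 * J / 2 = (J : ℝ) / 4 := by
          unfold RO.pe
          push_cast
          ring
        rw [h8, Real.rpow_neg (by norm_num), hx]
      rw [h7]
      have h8 : x⁻¹ ≤ 2 / N := by
        rw [inv_le_comm₀ hx0 (by positivity), inv_div]
        linarith
      have h9 : (J : ℝ) + k + 1 ≤ (8 + 2 * D) * N := by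
        have h10 : (J : ℝ) ≤ 4 * N := by exact_mod_cast hJ3.le
        nlinarith
      have h10 : 2 * K * Real.sqrt ((8 + 2 * D) * N) ≤ N := by
        have h11 : (2 * K * Real.sqrt ((8 + 2 * D) * N)) ^ 2 ≤ (N : ℝ) ^ 2 := by
          rw [mul_pow, Real.sq_sqrt (by positivity)]
          nlinarith
        exact le_of_pow_le_pow_left₀ (by norm_num) hN0.le h11
      calc K * x⁻¹ * Real.sqrt ((J : ℝ) + k + 1) ≤
            K * (2 / N) * Real.sqrt ((8 + 2 * D) * N) := by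
            gcongr
        _ = (2 * K * Real.sqrt ((8 + 2 * D) * N)) / N := by ring
        _ ≤ 1 := by
            rw [div_le_one hN0]
            exact h10
    -- the lower bound
    have hlow : c' * RO.R a N - 3 ≤ σ * RO.part W L y := by
      have h8 : RO.part W L y = RO.part W (N ^ 4) y + ∑ n ∈ Ico (N ^ 4) L, W n y := by
        unfold RO.part
        rw [Finset.sum_range_add_sum_Ico _ hLN]
      have h9 : |σ * (RO.part W L y - RO.part W (N ^ 4) t)| ≤ 2 := by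
        rw [abs_mul, hσ1, one_mul, h8]
        have h10 : RO.part W (N ^ 4) y + ∑ n ∈ Ico (N ^ 4) L, W n y - RO.part W (N ^ 4) t =
            (RO.part W (N ^ 4) y - RO.part W (N ^ 4) t) + ∑ n ∈ Ico (N ^ 4) L, W n y := by ring
        rw [h10]
        refine (abs_add_le _ _).trans ?_
        linarith
      have h10 := (abs_le.1 h9).1
      rw [mul_sub] at h10
      linarith
    have hfin : |σ * (S y - RO.part W L y)| ≤ 1 := by
      rw [abs_mul, hσ1, one_mul]
      exact hSy.le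
    have h6 := (abs_le.1 hfin).1
    rw [mul_sub] at h6
    linarith
  exact eventually_atTop.1 e

end Pool.Agent.H164.FP.LOE
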